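import Pool.Agent.Helper17_EU.StmtsT

/-! # Basic facts on edges and arcs -/

open Set Metric Topology unitInterval

noncomputable section

namespace Pool.Agent.EU.H11

universe u v

variable {X : Type u} [MetricSpace X] {ι : Type v} (𝓔 : EdgeSys X ι)

theorem o_subset_c (i : ι) : 𝓔.o i ⊆ 𝓔.c i := by
  rintro x ⟨t, _, rfl⟩
  exact ⟨t, rfl⟩

theorem c_compact (i : ι) : IsCompact (𝓔.c i) := isCompact_range (𝓔.φ i).continuous

theorem c_closed (i : ι) : IsClosed (𝓔.c i) := (c_compact 𝓔 i).isClosed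

theorem o_open (i : ι) : IsOpen (𝓔.o i) := 𝓔.opn i

theorem G_closed : IsClosed 𝓔.G := (isOpen_iUnion fun i => o_open 𝓔 i).isClosed_compl

theorem Y_closed (S : Set ι) : IsClosed (𝓔.Y S) :=
  (isOpen_biUnion fun i _ => o_open 𝓔 i).isClosed_compl

theorem mem_G {x : X} : x ∈ 𝓔.G ↔ ∀ i, x ∉ 𝓔.o i := by
  simp [EdgeSys.G]

theorem mem_Y {S : Set ι} {x : X} : x ∈ 𝓔.Y S ↔ ∀ i ∈ S, x ∉ 𝓔.o i := by
  simp [EdgeSys.Y]

theorem G_subset_Y (S : Set ι) : 𝓔.G ⊆ 𝓔.Y S := by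
  intro x hx
  rw [mem_Y]
  rw [mem_G] at hx
  exact fun i _ => hx i

theorem c_diff_o (i : ι) {x : X} (hx : x ∈ 𝓔.c i) (hx' : x ∉ 𝓔.o i) :
    x = 𝓔.φ i 0 ∨ x = 𝓔.φ i 1 := by
  obtain ⟨t, rfl⟩ := hx
  by_cases h0 : t = 0
  · left; rw [h0]
  by_cases h1 : t = 1
  · right; rw [h1]
  · exfalso
    refine hx' ⟨t, ⟨?_, ?_⟩, rfl⟩
    · exact lt_of_le_of_ne (unitInterval.nonneg' ) (Ne.symm h0)
    · exact lt_of_le_of_ne (unitInterval.le_one') h1

theorem end_mem_closure (i : ι) (e : I) (_he : e = 0 ∨ e = 1) : 𝓔.φ i e ∈ closure (𝓔.o i) := by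
  have h1 : closure (Ioo (0 : I) 1) = Icc 0 1 := closure_Ioo (by norm_num)
  have h2 : e ∈ closure (Ioo (0 : I) 1) := by
    rw [h1]; exact ⟨unitInterval.nonneg', unitInterval.le_one'⟩
  exact image_closure_subset_closure_image (𝓔.φ i).continuous ⟨e, h2, rfl⟩

theorem end_not_mem_o (i : ι) (e : I) (he : e = 0 ∨ e = 1) (j : ι) : 𝓔.φ i e ∉ 𝓔.o j := by
  intro h
  by_cases hij : i = j
  · subst hij
    obtain ⟨t, ht, hte⟩ := h
    have := 𝓔.inj i hte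
    subst this
    rcases he with rfl | rfl
    · exact lt_irrefl _ ht.1
    · exact lt_irrefl _ ht.2
  · have hc := end_mem_closure 𝓔 i e he
    rw [_root_.mem_closure_iff] at hc
    obtain ⟨x, hxj, hxi⟩ := hc _ (o_open 𝓔 j) h
    exact (Set.disjoint_left.1 (𝓔.disj i j hij)) hxi hxj

theorem end_mem_G (i : ι) (e : I) (he : e = 0 ∨ e = 1) : 𝓔.φ i e ∈ 𝓔.G := by
  rw [mem_G]
  exact end_not_mem_o 𝓔 i e he

theorem end0_mem_G (i : ι) : 𝓔.φ i 0 ∈ 𝓔.G := end_mem_G 𝓔 i 0 (Or.inl rfl)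

theorem end1_mem_G (i : ι) : 𝓔.φ i 1 ∈ 𝓔.G := end_mem_G 𝓔 i 1 (Or.inr rfl)

theorem ends_ne (i : ι) : 𝓔.φ i 0 ≠ 𝓔.φ i 1 := by
  intro h
  have := 𝓔.inj i h
  exact absurd this (by simp)

theorem closure_o (i : ι) : closure (𝓔.o i) = 𝓔.c i := by
  apply Subset.antisymm
  · exact closure_minimal (o_subset_c 𝓔 i) (c_closed 𝓔 i)
  · intro x hx
    by_cases h : x ∈ 𝓔.o i
    · exact subset_closure h
    · rcases c_diff_o 𝓔 i hx h with rfl | rfl
      · exact end_mem_closure 𝓔 i 0 (Or.inl rfl)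
      · exact end_mem_closure 𝓔 i 1 (Or.inr rfl)

theorem frontier_o (i : ι) {x : X} (hx : x ∈ frontier (𝓔.o i)) :
    x = 𝓔.φ i 0 ∨ x = 𝓔.φ i 1 := by
  rw [frontier, (o_open 𝓔 i).interior_eq, closure_o] at hx
  exact c_diff_o 𝓔 i hx.1 hx.2

theorem c_connected (i : ι) : IsConnected (𝓔.c i) := isConnected_range (𝓔.φ i).continuous

theorem o_nonempty (i : ι) : (𝓔.o i).Nonempty := by
  refine ⟨𝓔.φ i ⟨1/2, by norm_num, by norm_num⟩, _, ⟨?_, ?_⟩, rfl⟩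
  · rw [← Subtype.coe_lt_coe]; norm_num
  · rw [← Subtype.coe_lt_coe]; norm_num

/-- a preconnected set meeting the open edge and its complement contains an end -/
theorem exists_end_of_meets {i : ι} {N : Set X} (hN : IsPreconnected N)
    (h1 : (N ∩ 𝓔.o i).Nonempty) (h2 : (N ∩ (𝓔.o i)ᶜ).Nonempty) :
    𝓔.φ i 0 ∈ N ∨ 𝓔.φ i 1 ∈ N := by
  have h3 : (N ∩ frontier (𝓔.o i)).Nonempty := by
    by_contra hne
    rw [Set.not_nonempty_iff_eq_empty] at hne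
    have hsub : N ⊆ 𝓔.o i ∪ (closure (𝓔.o i))ᶜ := by
      intro x hx
      by_cases ho : x ∈ 𝓔.o i
      · exact Or.inl ho
      · right
        intro hc
        have : x ∈ N ∩ frontier (𝓔.o i) :=
          ⟨hx, by rw [frontier, (o_open 𝓔 i).interior_eq]; exact ⟨hc, ho⟩⟩
        rw [hne] at this
        exact this
    have hsecond : (N ∩ (closure (𝓔.o i))ᶜ).Nonempty := by
      obtain ⟨x, hx, hx'⟩ := h2
      rcases hsub hx with h | h
      · exact absurd h hx'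
      · exact ⟨x, hx, h⟩
    obtain ⟨x, _, hx1, hx2⟩ := hN _ _ (o_open 𝓔 i) isClosed_closure.isOpen_compl hsub h1 hsecond
    exact hx2 (subset_closure hx1)
  obtain ⟨x, hxN, hxf⟩ := h3
  rcases frontier_o 𝓔 i hxf with rfl | rfl
  · exact Or.inl hxN
  · exact Or.inr hxN

/-- component of an open subset of `I` not containing `0`, `1` -/
theorem exists_gap (U : Set I) (hU : IsOpen U) (h0 : (0 : I) ∉ U) (h1 : (1 : I) ∉ U)
    (t : I) (ht : t ∈ U) : ∃ s s' : I, s < t ∧ t < s' ∧ s ∉ U ∧ s' ∉ U ∧ Ioo s s' ⊆ U := by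
  have hc : IsClosed Uᶜ := hU.isClosed_compl
  have hA : IsCompact (Uᶜ ∩ Iic t) := (hc.inter isClosed_Iic).isCompact
  have hB : IsCompact (Uᶜ ∩ Ici t) := (hc.inter isClosed_Ici).isCompact
  obtain ⟨s, ⟨hsU, hst⟩, hs⟩ := hA.exists_isGreatest ⟨0, h0, unitInterval.nonneg'⟩
  obtain ⟨s', ⟨hsU', hst'⟩, hs'⟩ := hB.exists_isLeast ⟨1, h1, unitInterval.le_one'⟩
  refine ⟨s, s', ?_, ?_, hsU, hsU', ?_⟩
  · exact lt_of_le_of_ne hst (fun h => hsU (h ▸ ht))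
  · exact lt_of_le_of_ne hst' (fun h => hsU' (h ▸ ht))
  · rintro r ⟨hr1, hr2⟩
    by_contra hr
    rcases le_total r t with h | h
    · exact absurd (hs ⟨hr, h⟩) (not_le.2 hr1)
    · exact absurd (hs' ⟨hr, h⟩) (not_le.2 hr2)

/-- A connected subset of the closed edge containing both ends is everything. -/
theorem c_subset_of_ends {i : ι} {A : Set X} (hA : IsPreconnected A) (hAc : A ⊆ 𝓔.c i)
    (_hAk : IsCompact A) (h0 : 𝓔.φ i 0 ∈ A) (h1 : 𝓔.φ i 1 ∈ A) : 𝓔.c i ⊆ A := by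
  have hemb : IsClosedEmbedding (𝓔.φ i) :=
    (𝓔.φ i).continuous.isClosedEmbedding (𝓔.inj i)
  have hpre : IsPreconnected ((𝓔.φ i) ⁻¹' A) :=
    hA.preimage_of_isClosedMap (𝓔.inj i) hemb.isClosedMap hAc
  have hIcc : Icc (0 : I) 1 ⊆ (𝓔.φ i) ⁻¹' A := hpre.Icc_subset h0 h1
  rintro x ⟨t, rfl⟩
  exact hIcc ⟨unitInterval.nonneg', unitInterval.le_one'⟩

/-- If an arc meets an open edge, it runs through the edge. -/
theorem runs_of_meets (a : 𝓔.Arc) (i : ι) (t : I) (ht : a.f t ∈ 𝓔.o i) :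
    ∃ b s s', a.Runs i b s s' ∧ s < t ∧ t < s' := by
  set U : Set I := a.f ⁻¹' (𝓔.o i) with hUdef
  have hU : IsOpen U := (o_open 𝓔 i).preimage a.f.continuous
  have h0 : (0 : I) ∉ U := (mem_G 𝓔).1 a.h0 i
  have h1 : (1 : I) ∉ U := (mem_G 𝓔).1 a.h1 i
  obtain ⟨s, s', hst, hts', hsU, hsU', hsub⟩ := exists_gap U hU h0 h1 t ht
  have hss' : s < s' := hst.trans hts'
  have hcl : closure (Ioo s s') = Icc s s' := closure_Ioo hss'.ne
  have hin : a.f '' Icc s s' ⊆ 𝓔.c i := by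
    rw [← hcl, ← closure_o]
    refine (image_closure_subset_closure_image a.f.continuous).trans (closure_mono ?_)
    rintro x ⟨r, hr, rfl⟩
    exact hsub hr
  have hs : a.f s = 𝓔.φ i 0 ∨ a.f s = 𝓔.φ i 1 :=
    c_diff_o 𝓔 i (hin ⟨s, left_mem_Icc.2 hss'.le, rfl⟩) hsU
  have hs' : a.f s' = 𝓔.φ i 0 ∨ a.f s' = 𝓔.φ i 1 :=
    c_diff_o 𝓔 i (hin ⟨s', right_mem_Icc.2 hss'.le, rfl⟩) hsU'
  have hne : a.f s ≠ a.f s' := fun h => hss'.ne (a.inj h)
  have hpre : IsPreconnected (a.f '' Icc s s') :=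
    isPreconnected_Icc.image _ a.f.continuous.continuousOn
  have hcomp : IsCompact (a.f '' Icc s s') := isCompact_Icc.image a.f.continuous
  have key : ∀ b : Bool, (if b then a.f s = 𝓔.φ i 0 ∧ a.f s' = 𝓔.φ i 1
      else a.f s = 𝓔.φ i 1 ∧ a.f s' = 𝓔.φ i 0) → a.Runs i b s s' := by
    intro b hb
    have h01 : 𝓔.φ i 0 ∈ a.f '' Icc s s' ∧ 𝓔.φ i 1 ∈ a.f '' Icc s s' := by
      cases b
      · simp only [Bool.false_eq_true, if_false] at hb
        exact ⟨⟨s', right_mem_Icc.2 hss'.le, hb.2⟩, ⟨s, left_mem_Icc.2 hss'.le, hb.1⟩⟩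
      · simp only [if_true] at hb
        exact ⟨⟨s, left_mem_Icc.2 hss'.le, hb.1⟩, ⟨s', right_mem_Icc.2 hss'.le, hb.2⟩⟩
    have himg : a.f '' Icc s s' = 𝓔.c i :=
      Subset.antisymm hin (c_subset_of_ends 𝓔 hpre hin hcomp h01.1 h01.2)
    refine ⟨hss', himg, ?_, hb⟩
    apply Subset.antisymm
    · rintro x ⟨r, hr, rfl⟩
      exact hsub hr
    · intro x hx
      have hx' : x ∈ a.f '' Icc s s' := himg ▸ o_subset_c 𝓔 i hx
      obtain ⟨r, ⟨hr1, hr2⟩, rfl⟩ := hx'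
      refine ⟨r, ⟨lt_of_le_of_ne hr1 ?_, lt_of_le_of_ne hr2 ?_⟩, rfl⟩
      · rintro rfl; exact hsU hx
      · rintro rfl; exact hsU' hx
  rcases hs with hs | hs <;> rcases hs' with hs' | hs'
  · exact absurd (hs.trans hs'.symm) hne
  · exact ⟨true, s, s', key true (by simp only [if_true]; exact ⟨hs, hs'⟩), hst, hts'⟩
  · exact ⟨false, s, s', key false (by simp only [Bool.false_eq_true, if_false]; exact ⟨hs, hs'⟩),
      hst, hts'⟩
  · exact absurd (hs.trans hs'.symm) hne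

end Pool.Agent.EU.H11
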