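import Pool.Agent.Helper11_EU.T0

/-! # Modules PARARC and PARADD -/

open Set Metric Topology unitInterval

noncomputable section

namespace Pool.Agent.EU.H11

universe u v

variable {X : Type u} [MetricSpace X] {ι : Type v} (𝓔 : EdgeSys X ι)

/-- a closed set together with closed edges meeting it at an end is closed -/
theorem closed_fill [CompactSpace X] [LocallyConnectedSpace X] {K : Set X} (hK : IsClosed K)
    (J : Set ι) (hJ : ∀ i ∈ J, 𝓔.φ i 0 ∈ K ∨ 𝓔.φ i 1 ∈ K) :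
    IsClosed (K ∪ ⋃ i ∈ J, 𝓔.c i) := by
  rw [← isOpen_compl_iff, isOpen_iff_mem_nhds]
  intro x hx
  have hxK : x ∉ K := fun h => hx (Or.inl h)
  obtain ⟨ε, hε, hball⟩ := Metric.isOpen_iff.1 hK.isOpen_compl x hxK
  have hfin : ({i | ¬ Small (ε/2) (𝓔.c i)} ∩ J).Finite :=
    (null 𝓔 (ε/2) (by linarith)).subset inter_subset_left
  have hcl : IsClosed (⋃ i ∈ ({i | ¬ Small (ε/2) (𝓔.c i)} ∩ J), 𝓔.c i) :=
    hfin.isClosed_biUnion fun i _ => c_closed 𝓔 i
  have hxn : x ∉ ⋃ i ∈ ({i | ¬ Small (ε/2) (𝓔.c i)} ∩ J), 𝓔.c i := by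
    intro h
    simp only [mem_iUnion] at h
    obtain ⟨i, hi, hxi⟩ := h
    apply hx
    right
    simp only [mem_iUnion]
    exact ⟨i, hi.2, hxi⟩
  filter_upwards [ball_mem_nhds x (half_pos hε), hcl.isOpen_compl.mem_nhds hxn] with y hy1 hy2
  rintro (hyK | hyU)
  · exact hball (ball_subset_ball (by linarith) hy1) hyK
  · simp only [mem_iUnion] at hyU
    obtain ⟨i, hiJ, hyi⟩ := hyU
    by_cases hs : Small (ε/2) (𝓔.c i)
    · have key : ∀ e ∈ 𝓔.c i, e ∉ K := by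
        intro e he heK
        refine hball ?_ heK
        have h1 := hs e he y hyi
        have h2 := mem_ball.1 hy1
        have := dist_triangle e y x
        rw [mem_ball]
        linarith
      rcases hJ i hiJ with h | h
      · exact key _ ⟨0, rfl⟩ h
      · exact key _ ⟨1, rfl⟩ h
    · apply hy2
      simp only [mem_iUnion]
      exact ⟨i, ⟨hs, hiJ⟩, hyi⟩

/-- edges of `cross K` traversed in `[s,t]` -/
def NN {𝓔 : EdgeSys X ι} (a : 𝓔.Arc) (K : Set X) (s t : I) : Set ι :=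
  {i | i ∈ 𝓔.cross K ∧ ∃ b s' t', a.Runs i b s' t' ∧ s ≤ s' ∧ t' ≤ t}

theorem runs_inside {a : 𝓔.Arc} {i : ι} {b : Bool} {s' t' : I} (h : a.Runs i b s' t')
    {r : I} (hr : a.f r ∈ 𝓔.G) : r ≤ s' ∨ t' ≤ r := by
  by_contra hcon
  push Not at hcon
  have : a.f r ∈ 𝓔.o i := by
    rw [← h.2.2.1]
    exact ⟨r, ⟨hcon.1, hcon.2⟩, rfl⟩
  exact (mem_G 𝓔).1 hr i this

theorem runs_ends {a : 𝓔.Arc} {i : ι} {b : Bool} {s' t' : I} (h : a.Runs i b s' t') :
    (a.f s' = 𝓔.φ i 0 ∧ a.f t' = 𝓔.φ i 1) ∨ (a.f s' = 𝓔.φ i 1 ∧ a.f t' = 𝓔.φ i 0) := by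
  have := h.2.2.2
  cases b
  · simp only [Bool.false_eq_true, if_false] at this
    exact Or.inr this
  · simp only [if_true] at this
    exact Or.inl this

theorem runs_mem_G {a : 𝓔.Arc} {i : ι} {b : Bool} {s' t' : I} (h : a.Runs i b s' t') :
    a.f s' ∈ 𝓔.G ∧ a.f t' ∈ 𝓔.G := by
  rcases runs_ends 𝓔 h with ⟨h1, h2⟩ | ⟨h1, h2⟩
  · rw [h1, h2]; exact ⟨end0_mem_G 𝓔 i, end1_mem_G 𝓔 i⟩
  · rw [h1, h2]; exact ⟨end1_mem_G 𝓔 i, end0_mem_G 𝓔 i⟩

theorem zero_case [CompactSpace X] [LocallyConnectedSpace X] (a : 𝓔.Arc) {K : Set X}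
    (hK : 𝓔.ClopenG K) (s t : I) (hst : s ≤ t) (hs : a.f s ∈ 𝓔.G) (ht : a.f t ∈ 𝓔.G)
    (hN : NN a K s t = ∅) : a.f s ∈ K ↔ a.f t ∈ K := by
  obtain ⟨hKG, hKc, hKc'⟩ := hK
  set J : Set ι := {i | 𝓔.φ i 0 ∈ K ∧ 𝓔.φ i 1 ∈ K} with hJ
  set J' : Set ι := {i | 𝓔.φ i 0 ∉ K ∧ 𝓔.φ i 1 ∉ K} with hJ'
  set P : Set X := K ∪ ⋃ i ∈ J, 𝓔.c i with hP
  set Q : Set X := (𝓔.G \ K) ∪ ⋃ i ∈ J', 𝓔.c i with hQ
  have hPc : IsClosed P := closed_fill 𝓔 hKc J fun i hi => Or.inl hi.1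
  have hQc : IsClosed Q := closed_fill 𝓔 hKc' J' fun i hi => Or.inl ⟨end0_mem_G 𝓔 i, hi.1⟩
  have hPm : ∀ x ∈ P, x ∈ K ∨ ∃ i ∈ J, x ∈ 𝓔.o i := by
    rintro x (hx | hx)
    · exact Or.inl hx
    · simp only [mem_iUnion] at hx
      obtain ⟨i, hi, hxi⟩ := hx
      by_cases ho : x ∈ 𝓔.o i
      · exact Or.inr ⟨i, hi, ho⟩
      · left
        rcases c_diff_o 𝓔 i hxi ho with rfl | rfl
        · exact hi.1
        · exact hi.2
  have hQm : ∀ x ∈ Q, x ∈ 𝓔.G \ K ∨ ∃ i ∈ J', x ∈ 𝓔.o i := by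
    rintro x (hx | hx)
    · exact Or.inl hx
    · simp only [mem_iUnion] at hx
      obtain ⟨i, hi, hxi⟩ := hx
      by_cases ho : x ∈ 𝓔.o i
      · exact Or.inr ⟨i, hi, ho⟩
      · left
        rcases c_diff_o 𝓔 i hxi ho with rfl | rfl
        · exact ⟨end0_mem_G 𝓔 i, hi.1⟩
        · exact ⟨end1_mem_G 𝓔 i, hi.2⟩
  have hdisj : P ∩ Q = ∅ := by
    ext x
    simp only [mem_inter_iff, mem_empty_iff_false, iff_false, not_and]
    intro hxP hxQ
    rcases hPm x hxP with h1 | ⟨i, hi, h1⟩ <;> rcases hQm x hxQ with h2 | ⟨j, hj, h2⟩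
    · exact h2.2 h1
    · exact (mem_G 𝓔).1 (hKG h1) j h2
    · exact (mem_G 𝓔).1 h2.1 i h1
    · by_cases hij : i = j
      · subst hij
        exact hj.1 hi.1
      · exact Set.disjoint_left.1 (𝓔.disj i j hij) h1 h2
  have hcov : a.f '' Icc s t ⊆ P ∪ Q := by
    rintro x ⟨r, hr, rfl⟩
    by_cases hG : a.f r ∈ 𝓔.G
    · by_cases hk : a.f r ∈ K
      · exact Or.inl (Or.inl hk)
      · exact Or.inr (Or.inl ⟨hG, hk⟩)
    · have : ∃ i, a.f r ∈ 𝓔.o i := by
        by_contra hcon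
        push Not at hcon
        exact hG ((mem_G 𝓔).2 hcon)
      obtain ⟨i, hi⟩ := this
      obtain ⟨b, s', t', hruns, h1, h2⟩ := runs_of_meets 𝓔 a i r hi
      have hs' : s ≤ s' := by
        rcases runs_inside 𝓔 hruns hs with h | h
        · exact h
        · exact absurd (h2.trans_le h) (not_lt.2 hr.1)
      have ht' : t' ≤ t := by
        rcases runs_inside 𝓔 hruns ht with h | h
        · exact absurd (h.trans_lt h1) (not_lt.2 hr.2)
        · exact h
      have hnc : i ∉ 𝓔.cross K := by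
        intro hc
        have : i ∈ NN a K s t := ⟨hc, b, s', t', hruns, hs', ht'⟩
        rw [hN] at this
        exact this
      have hnc' : 𝓔.φ i 0 ∈ K ↔ 𝓔.φ i 1 ∈ K := by
        by_contra h
        exact hnc h
      by_cases hk : 𝓔.φ i 0 ∈ K
      · left; right
        simp only [mem_iUnion]
        exact ⟨i, ⟨hk, hnc'.1 hk⟩, o_subset_c 𝓔 i hi⟩
      · right; right
        simp only [mem_iUnion]
        exact ⟨i, ⟨hk, fun h => hk (hnc'.2 h)⟩, o_subset_c 𝓔 i hi⟩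
  have hpre : IsPreconnected (a.f '' Icc s t) :=
    isPreconnected_Icc.image _ a.f.continuous.continuousOn
  rw [isPreconnected_closed_iff] at hpre
  have hms : a.f s ∈ a.f '' Icc s t := ⟨s, left_mem_Icc.2 hst, rfl⟩
  have hmt : a.f t ∈ a.f '' Icc s t := ⟨t, right_mem_Icc.2 hst, rfl⟩
  constructor
  · intro h1
    by_contra h2
    obtain ⟨x, _, hx⟩ := hpre P Q hPc hQc hcov ⟨_, hms, Or.inl h1⟩ ⟨_, hmt, Or.inl ⟨ht, h2⟩⟩
    rw [hdisj] at hx
    exact hx
  · intro h1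
    by_contra h2
    obtain ⟨x, _, hx⟩ := hpre P Q hPc hQc hcov ⟨_, hmt, Or.inl h1⟩ ⟨_, hms, Or.inl ⟨hs, h2⟩⟩
    rw [hdisj] at hx
    exact hx

theorem runs_unique {a : 𝓔.Arc} {i : ι} {b c : Bool} {s t s' t' : I} (h : a.Runs i b s t)
    (h' : a.Runs i c s' t') : s = s' ∧ t = t' := by
  have e1 : Icc s t = Icc s' t' := by
    have : a.f '' Icc s t = a.f '' Icc s' t' := h.2.1.trans h'.2.1.symm
    exact a.inj.image_injective this
  have h1 : s ≤ t := h.1.le
  have h2 : s' ≤ t' := h'.1.le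
  have h3 : s ∈ Icc s' t' := e1 ▸ left_mem_Icc.2 h1
  have h4 : t ∈ Icc s' t' := e1 ▸ right_mem_Icc.2 h1
  have h5 : s' ∈ Icc s t := e1.symm ▸ left_mem_Icc.2 h2
  have h6 : t' ∈ Icc s t := e1.symm ▸ right_mem_Icc.2 h2
  exact ⟨le_antisymm h5.1 h3.1, le_antisymm h4.2 h6.2⟩

theorem parity_aux [CompactSpace X] [LocallyConnectedSpace X] (a : 𝓔.Arc) {K : Set X}
    (hK : 𝓔.ClopenG K) (n : ℕ) : ∀ (s t : I), s ≤ t → a.f s ∈ 𝓔.G → a.f t ∈ 𝓔.G →
    (NN a K s t).ncard = n → (Even n ↔ (a.f s ∈ K ↔ a.f t ∈ K)) := by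
  have hfin : ∀ s t, (NN a K s t).Finite := fun s t =>
    (crossFin 𝓔 K hK).subset fun i hi => hi.1
  induction n using Nat.strong_induction_on with
  | _ n ih =>
    intro s t hst hs ht hn
    by_cases hE : NN a K s t = ∅
    · have h0 : n = 0 := by rw [← hn, hE, ncard_empty]
      subst h0
      simp only [Even.zero, true_iff]
      exact zero_case 𝓔 a hK s t hst hs ht hE
    · obtain ⟨i, hi⟩ := Set.nonempty_iff_ne_empty.2 hE
      obtain ⟨hic, b, s', t', hruns, hss', ht't⟩ := hi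
      obtain ⟨hG1, hG2⟩ := runs_mem_G 𝓔 hruns
      have hdec : NN a K s t = (NN a K s s' ∪ NN a K t' t) ∪ {i} := by
        apply Subset.antisymm
        · rintro j ⟨hjc, b', s'', t'', hj, h1, h2⟩
          by_cases hij : j = i
          · exact Or.inr hij
          left
          obtain ⟨hG3, hG4⟩ := runs_mem_G 𝓔 hj
          rcases runs_inside 𝓔 hruns hG3 with h3 | h3
          · rcases runs_inside 𝓔 hruns hG4 with h4 | h4
            · exact Or.inl ⟨hjc, b', s'', t'', hj, h1, h4⟩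
            · exfalso
              obtain ⟨r, hr1, hr2⟩ := exists_between hruns.1
              have m1 : a.f r ∈ 𝓔.o i := by rw [← hruns.2.2.1]; exact ⟨r, ⟨hr1, hr2⟩, rfl⟩
              have m2 : a.f r ∈ 𝓔.o j := by
                rw [← hj.2.2.1]
                exact ⟨r, ⟨lt_of_le_of_lt h3 hr1, lt_of_lt_of_le hr2 h4⟩, rfl⟩
              exact Set.disjoint_left.1 (𝓔.disj j i hij) m2 m1
          · exact Or.inr ⟨hjc, b', s'', t'', hj, h3, h2⟩
        · rintro j ((hj | hj) | hj)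
          · obtain ⟨hjc, b', s'', t'', hj, h1, h2⟩ := hj
            exact ⟨hjc, b', s'', t'', hj, h1, h2.trans (hruns.1.le.trans ht't)⟩
          · obtain ⟨hjc, b', s'', t'', hj, h1, h2⟩ := hj
            exact ⟨hjc, b', s'', t'', hj, (hss'.trans hruns.1.le).trans h1, h2⟩
          · rw [mem_singleton_iff] at hj
            subst hj
            exact ⟨hic, b, s', t', hruns, hss', ht't⟩
      have hd1 : Disjoint (NN a K s s') (NN a K t' t) := by
        rw [Set.disjoint_left]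
        rintro j ⟨_, b1, s1, t1, hj1, _, h2⟩ ⟨_, b2, s2, t2, hj2, h3, _⟩
        obtain ⟨e1, e2⟩ := runs_unique 𝓔 hj1 hj2
        have := hj1.1
        have h5 : t1 ≤ s2 := h2.trans (hruns.1.le.trans h3)
        rw [← e1] at h5
        exact absurd this (not_lt.2 h5)
      have hd2 : Disjoint (NN a K s s' ∪ NN a K t' t) {i} := by
        rw [Set.disjoint_singleton_right]
        rintro (⟨_, b1, s1, t1, hj1, _, h2⟩ | ⟨_, b1, s1, t1, hj1, h2, _⟩)
        · obtain ⟨e1, e2⟩ := runs_unique 𝓔 hj1 hruns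
          rw [e2] at h2
          exact absurd hruns.1 (not_lt.2 h2)
        · obtain ⟨e1, e2⟩ := runs_unique 𝓔 hj1 hruns
          rw [e1] at h2
          exact absurd hruns.1 (not_lt.2 h2)
      have hcard : n = (NN a K s s').ncard + (NN a K t' t).ncard + 1 := by
        rw [← hn, hdec, ncard_union_eq hd2 ((hfin _ _).union (hfin _ _)) (finite_singleton i),
          ncard_union_eq hd1 (hfin _ _) (hfin _ _), ncard_singleton]
      have ih1 := ih _ (by omega) s s' hss' hs hG1 rfl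
      have ih2 := ih _ (by omega) t' t ht't hG2 ht rfl
      have hcr : ¬ (a.f s' ∈ K ↔ a.f t' ∈ K) := by
        rcases runs_ends 𝓔 hruns with ⟨h1, h2⟩ | ⟨h1, h2⟩
        · rw [h1, h2]; exact hic
        · rw [h1, h2]; exact fun h => hic h.symm
      rw [hcard, Nat.even_add_one, Nat.even_add, ih1, ih2]
      tauto

theorem NN_univ (a : 𝓔.Arc) (K : Set X) : NN a K 0 1 = 𝓔.cross K ∩ a.E := by
  apply Subset.antisymm
  · rintro i ⟨hi, b, s, t, hr, _, _⟩
    refine ⟨hi, ?_⟩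
    intro x hx
    rw [← hr.2.2.1] at hx
    obtain ⟨r, _, rfl⟩ := hx
    exact ⟨r, rfl⟩
  · rintro i ⟨hi, hiE⟩
    obtain ⟨b, s, t, hr⟩ := arcRuns 𝓔 a i hiE
    exact ⟨hi, b, s, t, hr, unitInterval.nonneg', unitInterval.le_one'⟩

theorem parArc [CompactSpace X] [LocallyConnectedSpace X] : 𝓔.ParArcStmt := by
  intro a K hK
  have := parity_aux 𝓔 a hK _ 0 1 zero_le_one a.h0 a.h1 rfl
  rw [NN_univ] at this
  exact this

/-! ## PARADD -/

theorem disj_of_Y {a : 𝓔.Arc} {S : Set ι} (h : range a.f ⊆ 𝓔.Y S) : Disjoint a.E S := by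
  rw [Set.disjoint_left]
  intro i hi hiS
  obtain ⟨x, hx⟩ := o_nonempty 𝓔 i
  exact (mem_Y 𝓔).1 (h (hi hx)) i hiS hx

theorem cross_split [CompactSpace X] [LocallyConnectedSpace X] {K : Set X}
    (hK : 𝓔.ClopenG K) {S T : Set ι} (h : Disjoint T S) :
    (𝓔.cross K \ S).ncard = (𝓔.cross K \ (S ∪ T)).ncard + (𝓔.cross K ∩ T).ncard := by
  have hfin := crossFin 𝓔 K hK
  rw [← ncard_union_eq _ (hfin.subset sdiff_subset) (hfin.subset inter_subset_left)]
  · congr 1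
    ext i
    simp only [mem_sdiff, mem_union, mem_inter_iff]
    constructor
    · rintro ⟨h1, h2⟩
      by_cases h3 : i ∈ T
      · exact Or.inr ⟨h1, h3⟩
      · exact Or.inl ⟨h1, by tauto⟩
    · rintro (⟨h1, h2⟩ | ⟨h1, h2⟩)
      · exact ⟨h1, by tauto⟩
      · exact ⟨h1, fun h3 => Set.disjoint_left.1 h h2 h3⟩
  · rw [Set.disjoint_left]
    rintro i ⟨_, h2⟩ ⟨_, h3⟩
    exact h2 (Or.inr h3)

theorem EL_cons (a : 𝓔.Arc) (l : List 𝓔.Arc) : 𝓔.EL (a :: l) = a.E ∪ 𝓔.EL l := by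
  ext i
  simp [EdgeSys.EL]

theorem EL_nil : 𝓔.EL ([] : List 𝓔.Arc) = ∅ := by
  ext i
  simp [EdgeSys.EL]

theorem degL_cons (a : 𝓔.Arc) (l : List 𝓔.Arc) (v : X) :
    𝓔.degL (a :: l) v = 𝓔.degL [a] v + 𝓔.degL l v := by
  classical
  simp only [EdgeSys.degL, List.countP_cons, List.countP_nil]
  omega

theorem indicator_sum (V' : Finset X) (K : Set X) (a : 𝓔.Arc) (h0 : a.f 0 ∈ V')
    (h1 : a.f 1 ∈ V') : Even (∑ v ∈ V', K.indicator (fun v => 𝓔.degL [a] v) v) ↔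
      (a.f 0 ∈ K ↔ a.f 1 ∈ K) := by
  classical
  have : ∑ v ∈ V', K.indicator (fun v => 𝓔.degL [a] v) v =
      (if a.f 0 ∈ K then 1 else 0) + (if a.f 1 ∈ K then 1 else 0) := by
    have e : ∀ v ∈ V', K.indicator (fun v => 𝓔.degL [a] v) v =
        (if a.f 0 = v then (if a.f 0 ∈ K then 1 else 0) else 0) +
        (if a.f 1 = v then (if a.f 1 ∈ K then 1 else 0) else 0) := by
      intro v _
      by_cases hv : v ∈ K
      · rw [indicator_of_mem hv]
        simp only [EdgeSys.degL, List.countP_cons, List.countP_nil, zero_add, decide_eq_true_eq]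
        congr 1
        · by_cases h : a.f 0 = v
          · simp [h, hv]
          · simp [h]
        · by_cases h : a.f 1 = v
          · simp [h, hv]
          · simp [h]
      · rw [indicator_of_notMem hv]
        by_cases h : a.f 0 = v
        · by_cases h' : a.f 1 = v
          · simp [h, h', hv]
          · simp [h, h', hv]
        · by_cases h' : a.f 1 = v
          · simp [h, h', hv]
          · simp [h, h']
    rw [Finset.sum_congr rfl e, Finset.sum_add_distrib, Finset.sum_ite_eq, Finset.sum_ite_eq,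
      if_pos h0, if_pos h1]
  rw [this]
  by_cases k0 : a.f 0 ∈ K <;> by_cases k1 : a.f 1 ∈ K <;> simp [k0, k1]

theorem par_step [CompactSpace X] [LocallyConnectedSpace X] {S : Set ι} {V' : Finset X}
    {d : X → ℕ} (h : 𝓔.Par S V' d) (a : 𝓔.Arc) (ha : Disjoint a.E S) (h0 : a.f 0 ∈ V')
    (h1 : a.f 1 ∈ V') : 𝓔.Par (S ∪ a.E) V' (fun v => d v + 𝓔.degL [a] v) := by
  intro K hK
  have e1 := h K hK
  rw [cross_split 𝓔 hK ha] at e1
  have e2 := parArc 𝓔 a K hK
  have e3 := indicator_sum 𝓔 V' K a h0 h1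
  have e4 : ∑ v ∈ V', K.indicator (fun v => d v + 𝓔.degL [a] v) v =
      ∑ v ∈ V', K.indicator d v + ∑ v ∈ V', K.indicator (fun v => 𝓔.degL [a] v) v := by
    rw [← Finset.sum_add_distrib]
    refine Finset.sum_congr rfl fun v _ => ?_
    by_cases hv : v ∈ K
    · simp [hv]
    · simp [hv]
  rw [e4]
  rw [Nat.even_add, Nat.even_add] at e1
  rw [Nat.even_add, Nat.even_add]
  tauto

theorem par_list [CompactSpace X] [LocallyConnectedSpace X] {V' : Finset X} (l : List 𝓔.Arc) :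
    ∀ {S : Set ι} {d : X → ℕ}, 𝓔.Par S V' d → 𝓔.EDisj l → (∀ a ∈ l, Disjoint a.E S) →
      (∀ a ∈ l, a.f 0 ∈ V' ∧ a.f 1 ∈ V') →
      𝓔.Par (S ∪ 𝓔.EL l) V' (fun v => d v + 𝓔.degL l v) := by
  induction l with
  | nil =>
    intro S d h _ _ _
    rw [EL_nil, union_empty]
    simpa [EdgeSys.degL] using h
  | cons a l ih =>
    intro S d h hd hS hV
    have hd' := List.pairwise_cons.1 hd
    have h1 := par_step 𝓔 h a (hS a (by simp)) (hV a (by simp)).1 (hV a (by simp)).2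
    have h2 := ih h1 hd'.2 (fun b hb => by
      rw [Set.disjoint_union_right]
      exact ⟨hS b (by simp [hb]), (hd'.1 b hb).symm⟩) (fun b hb => hV b (by simp [hb]))
    rw [EL_cons, ← union_assoc]
    have e : (fun v => d v + 𝓔.degL (a :: l) v) =
        (fun v => d v + 𝓔.degL [a] v + 𝓔.degL l v) := by
      funext v
      rw [degL_cons, add_assoc]
    rw [e]
    exact h2

theorem parAdd [CompactSpace X] [LocallyConnectedSpace X] : 𝓔.ParAddStmt := by
  intro S V V' d l h hVV' hd hl hY hV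
  have h' : 𝓔.Par S V' d := by
    intro K hK
    have e := h K hK
    have e2 : ∑ v ∈ V, K.indicator d v = ∑ v ∈ V', K.indicator d v := by
      refine Finset.sum_subset hVV' fun v _ hv => ?_
      by_cases hk : v ∈ K
      · rw [indicator_of_mem hk, hd v hv]
      · rw [indicator_of_notMem hk]
    rw [← e2]
    exact e
  refine par_list 𝓔 l h' hl (fun a ha => disj_of_Y 𝓔 ?_) hV
  intro x hx
  exact hY ⟨a, ha, hx⟩

theorem chain_parity [CompactSpace X] [LocallyConnectedSpace X] {K : Set X}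
    (hK : 𝓔.ClopenG K) {x y : X} {l : List 𝓔.Arc} (h : 𝓔.ChainA x l y) (hl : 𝓔.EDisj l) :
    Even ((𝓔.cross K ∩ 𝓔.EL l).ncard) ↔ (x ∈ K ↔ y ∈ K) := by
  have hfin := crossFin 𝓔 K hK
  induction h with
  | nil x => simp [EL_nil]
  | cons a l y hch ih =>
    have hl' := List.pairwise_cons.1 hl
    have ih' := ih hl'.2
    have hdis : Disjoint (𝓔.cross K ∩ a.E) (𝓔.cross K ∩ 𝓔.EL l) := by
      rw [Set.disjoint_left]
      rintro i ⟨_, h1⟩ ⟨_, ⟨b, hb, h2⟩⟩
      exact Set.disjoint_left.1 (hl'.1 b hb) h1 h2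
    rw [EL_cons, inter_union_distrib_left, ncard_union_eq hdis (hfin.subset inter_subset_left)
      (hfin.subset inter_subset_left), Nat.even_add]
    have e3 := parArc 𝓔 a K hK
    tauto

theorem parChain [CompactSpace X] [LocallyConnectedSpace X] : 𝓔.ParChainStmt := by
  intro S V d l x h hl hY hch K hK
  have e1 := h K hK
  have hdis : Disjoint (𝓔.EL l) S := by
    rw [Set.disjoint_left]
    rintro i ⟨a, ha, hi⟩ hiS
    refine Set.disjoint_left.1 (disj_of_Y 𝓔 (a := a) (S := S) ?_) hi hiS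
    intro x hx
    exact hY ⟨a, ha, hx⟩
  rw [cross_split 𝓔 hK hdis] at e1
  have e2 := chain_parity 𝓔 hK hch hl
  rw [Nat.even_add, Nat.even_add] at e1
  rw [Nat.even_add]
  tauto

end Pool.Agent.EU.H11
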