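import Pool.Agent.Helper17_EU.StmtsT

/-! # Module PATHARC: every path contains an arc -/

open Set Metric Topology unitInterval

noncomputable section

namespace Pool.Agent.EU.H11

universe u

variable {X : Type u} [MetricSpace X]

/-! ## Part 1: from a path to a monotone path -/

/-- admissible closed sets of times -/
def Adm (f : C(I, X)) : Set (Set I) :=
  {C | IsClosed C ∧ (0 : I) ∈ C ∧ (1 : I) ∈ C ∧
    ∀ s ∈ C, ∀ t ∈ C, s < t → Ioo s t ∩ C = ∅ → f s = f t}

theorem adm_chain (f : C(I, X)) (c : Set (Set I)) (hc : c ⊆ Adm f) (hch : IsChain (· ⊆ ·) c)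
    (hne : c.Nonempty) : ∃ lb ∈ Adm f, ∀ s ∈ c, lb ⊆ s := by
  refine ⟨⋂₀ c, ⟨isClosed_sInter fun C hC => (hc hC).1, fun C hC => (hc hC).2.1,
    fun C hC => (hc hC).2.2.1, ?_⟩, fun s hs => sInter_subset_of_mem hs⟩
  intro s hs t ht hst hgap
  by_contra hft
  have hd : 0 < dist (f s) (f t) := dist_pos.2 hft
  have huc : UniformContinuous f := CompactSpace.uniformContinuous_of_continuous f.continuous
  obtain ⟨δ, hδ, hf⟩ := Metric.uniformContinuous_iff.1 huc (dist (f s) (f t) / 2) (by linarith)
  have hst' : (s : ℝ) < t := hst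
  set η : ℝ := min (δ/2) (((t : ℝ) - s)/3) with hη
  have hη0 : 0 < η := lt_min (by linarith) (by linarith)
  have hη1 : η ≤ δ/2 := min_le_left _ _
  have hη2 : η ≤ ((t : ℝ) - s)/3 := min_le_right _ _
  have hs0 := s.2.1
  have ht1 := t.2.2
  set s1 : I := ⟨(s : ℝ) + η, by linarith, by linarith⟩ with hs1
  set t1 : I := ⟨(t : ℝ) - η, by linarith, by linarith⟩ with ht1'
  have h1 : s < s1 := by change (s : ℝ) < s + η; linarith
  have h2 : s1 ≤ t1 := by change (s : ℝ) + η ≤ t - η; linarith
  have h3 : t1 < t := by change (t : ℝ) - η < t; linarith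
  have hempty : Icc s1 t1 ∩ ⋂ C : c, (C : Set I) = ∅ := by
    rw [← sInter_eq_iInter]
    apply eq_empty_of_forall_notMem
    rintro r ⟨hr1, hr2⟩
    have : r ∈ Ioo s t ∩ ⋂₀ c := ⟨⟨h1.trans_le hr1.1, hr1.2.trans_lt h3⟩, hr2⟩
    rw [hgap] at this
    exact this
  have : Nonempty c := hne.to_subtype
  obtain ⟨⟨C, hC⟩, hCe⟩ := (isCompact_Icc (a := s1) (b := t1)).elim_directed_family_closed
    (fun C : c => (C : Set I)) (fun C => (hc C.2).1) hempty (by
      intro A B
      rcases hch.total A.2 B.2 with h | h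
      · exact ⟨A, subset_refl _, h⟩
      · exact ⟨B, h, subset_refl _⟩)
  have hCa := hc hC
  have hsC : s ∈ C := hs C hC
  have htC : t ∈ C := ht C hC
  obtain ⟨s', ⟨hs'C, hs's⟩, hs'⟩ := (hCa.1.inter (isClosed_Iic (a := s1))).isCompact.exists_isGreatest
    ⟨s, hsC, h1.le⟩
  obtain ⟨t', ⟨ht'C, ht't⟩, ht'⟩ := (hCa.1.inter (isClosed_Ici (a := t1))).isCompact.exists_isLeast
    ⟨t, htC, h3.le⟩
  have hne' : ∀ r ∈ C, ¬ (s1 ≤ r ∧ r ≤ t1) := by
    intro r hr hr'
    have : r ∈ Icc s1 t1 ∩ C := ⟨hr', hr⟩
    rw [hCe] at this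
    exact this
  have hs'1 : s' < s1 := lt_of_le_of_ne hs's (fun h => hne' s' hs'C ⟨h.ge, h.le.trans h2⟩)
  have ht'1 : t1 < t' := lt_of_le_of_ne ht't (fun h => hne' t' ht'C ⟨h2.trans h.le, h.ge⟩)
  have hss' : s ≤ s' := hs' ⟨hsC, h1.le⟩
  have htt' : t' ≤ t := ht' ⟨htC, h3.le⟩
  have heq : f s' = f t' := by
    refine hCa.2.2.2 s' hs'C t' ht'C (hs'1.trans_le (h2.trans ht'1.le)) ?_
    apply eq_empty_of_forall_notMem
    rintro r ⟨⟨hr1, hr2⟩, hrC⟩
    rcases le_or_gt r s1 with h | h
    · exact absurd (hs' ⟨hrC, h⟩) (not_le.2 hr1)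
    · rcases le_or_gt t1 r with h' | h'
      · exact absurd (ht' ⟨hrC, h'⟩) (not_le.2 hr2)
      · exact hne' r hrC ⟨h.le, h'.le⟩
  have e1 : dist (f s) (f s') < dist (f s) (f t) / 2 := by
    apply hf
    have a1 : (s : ℝ) ≤ s' := hss'
    have a2 : (s' : ℝ) < s + η := hs'1
    rw [Subtype.dist_eq, Real.dist_eq, abs_sub_comm, abs_of_nonneg (by linarith)]
    linarith
  have e2 : dist (f t') (f t) < dist (f s) (f t) / 2 := by
    apply hf
    have a1 : (t' : ℝ) ≤ t := htt'
    have a2 : (t : ℝ) - η < t' := ht'1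
    rw [Subtype.dist_eq, Real.dist_eq, abs_sub_comm, abs_of_nonneg (by linarith)]
    linarith
  have e3 := dist_triangle (f s) (f s') (f t)
  rw [heq] at e1 e3
  linarith

/-- monotone path from a path -/
theorem exists_mono (f : C(I, X)) : ∃ F : C(I, X), F 0 = f 0 ∧ F 1 = f 1 ∧ range F ⊆ range f ∧
    ∀ s t : I, s ≤ t → F s = F t → ∀ r, s ≤ r → r ≤ t → F r = F s := by
  obtain ⟨C, _, hCmin⟩ := zorn_superset_nonempty (Adm f) (adm_chain f) univ
    ⟨isClosed_univ, mem_univ _, mem_univ _, fun s _ t _ hst h => by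
      exfalso
      obtain ⟨r, hr1, hr2⟩ := exists_between hst
      have : r ∈ Ioo s t ∩ univ := ⟨⟨hr1, hr2⟩, mem_univ _⟩
      rw [h] at this
      exact this⟩
  obtain ⟨hCc, h0, h1, hgap⟩ := hCmin.prop
  -- minimality
  have hmin : ∀ s ∈ C, ∀ t ∈ C, s < t → f s = f t → Ioo s t ∩ C = ∅ := by
    intro s hs t ht hst hft
    have hA : C \ Ioo s t ∈ Adm f := by
      refine ⟨hCc.sdiff isOpen_Ioo, ⟨h0, fun h => ?_⟩, ⟨h1, fun h => ?_⟩, ?_⟩
      · exact absurd h.1 (not_lt.2 unitInterval.nonneg')
      · exact absurd h.2 (not_lt.2 unitInterval.le_one')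
      · rintro a ⟨ha, ha'⟩ b ⟨hb, hb'⟩ hab hgap'
        by_cases hE : Ioo a b ∩ C = ∅
        · exact hgap a ha b hb hab hE
        · obtain ⟨c, ⟨hc1, hc2⟩, hcC⟩ := Set.nonempty_iff_ne_empty.2 hE
          have hcst : c ∈ Ioo s t := by
            by_contra hn
            have : c ∈ Ioo a b ∩ (C \ Ioo s t) := ⟨⟨hc1, hc2⟩, hcC, hn⟩
            rw [hgap'] at this
            exact this
          have has : a ≤ s := by
            by_contra h
            exact ha' ⟨not_le.1 h, hc1.trans hcst.2⟩
          have htb : t ≤ b := by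
            by_contra h
            exact hb' ⟨hcst.1.trans hc2, not_le.1 h⟩
          have has' : a = s := by
            by_contra h
            have : s ∈ Ioo a b ∩ (C \ Ioo s t) :=
              ⟨⟨lt_of_le_of_ne has h, hst.trans_le htb⟩, hs, fun h' => lt_irrefl _ h'.1⟩
            rw [hgap'] at this
            exact this
          have htb' : t = b := by
            by_contra h
            have : t ∈ Ioo a b ∩ (C \ Ioo s t) :=
              ⟨⟨has.trans_lt hst, lt_of_le_of_ne htb h⟩, ht, fun h' => lt_irrefl _ h'.2⟩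
            rw [hgap'] at this
            exact this
          rw [has', ← htb']
          exact hft
    have := hCmin.le_of_le hA sdiff_subset
    apply eq_empty_of_forall_notMem
    rintro r ⟨hr1, hr2⟩
    exact (this hr2).2 hr1
  -- left and right points
  have hL : ∀ t : I, ∃ l ∈ C, l ≤ t ∧ ∀ r ∈ C, r ≤ t → r ≤ l := by
    intro t
    obtain ⟨l, ⟨hl1, hl2⟩, hl3⟩ := (hCc.inter (isClosed_Iic (a := t))).isCompact.exists_isGreatest
      ⟨0, h0, unitInterval.nonneg'⟩
    exact ⟨l, hl1, hl2, fun r hr hrt => hl3 ⟨hr, hrt⟩⟩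
  have hR : ∀ t : I, ∃ l ∈ C, t ≤ l ∧ ∀ r ∈ C, t ≤ r → l ≤ r := by
    intro t
    obtain ⟨l, ⟨hl1, hl2⟩, hl3⟩ := (hCc.inter (isClosed_Ici (a := t))).isCompact.exists_isLeast
      ⟨1, h1, unitInterval.le_one'⟩
    exact ⟨l, hl1, hl2, fun r hr hrt => hl3 ⟨hr, hrt⟩⟩
  choose L hLC hLle hLmax using hL
  choose R hRC hRle hRmin using hR
  have hLR : ∀ t, f (L t) = f (R t) := by
    intro t
    by_cases h : L t = R t
    · rw [h]
    · have hlt : L t < R t := lt_of_le_of_ne ((hLle t).trans (hRle t)) h
      refine hgap _ (hLC t) _ (hRC t) hlt ?_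
      apply eq_empty_of_forall_notMem
      rintro r ⟨⟨hr1, hr2⟩, hrC⟩
      rcases le_total r t with h' | h'
      · exact absurd (hLmax t r hrC h') (not_le.2 hr1)
      · exact absurd (hRmin t r hrC h') (not_le.2 hr2)
  have hmod : ∀ s t, s ≤ t → f (L s) = f (L t) ∨ (s ≤ R s ∧ R s ≤ L t ∧ L t ≤ t) := by
    intro s t hst
    by_cases h : s ≤ L t
    · exact Or.inr ⟨hRle s, hRmin s _ (hLC t) h, hLle t⟩
    · left
      have h' : L t ≤ L s := hLmax s _ (hLC t) (not_le.1 h).le
      have h'' : L s ≤ L t := hLmax t _ (hLC s) ((hLle s).trans hst)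
      rw [le_antisymm h'' h']
  have hcont : Continuous (fun t => f (L t)) := by
    apply UniformContinuous.continuous
    rw [Metric.uniformContinuous_iff]
    intro ε hε
    have huc : UniformContinuous f := CompactSpace.uniformContinuous_of_continuous f.continuous
    obtain ⟨δ, hδ, hf⟩ := Metric.uniformContinuous_iff.1 huc ε hε
    refine ⟨δ, hδ, ?_⟩
    have key : ∀ s t : I, s ≤ t → dist s t < δ → dist (f (L s)) (f (L t)) < ε := by
      intro s t hst hd
      rcases hmod s t hst with h | ⟨h1, h2, h3⟩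
      · rw [h, dist_self]; exact hε
      · rw [hLR s]
        apply hf
        rw [Subtype.dist_eq, Real.dist_eq, abs_sub_comm] at hd ⊢
        have a1 : (s : ℝ) ≤ R s := h1
        have a2 : (R s : ℝ) ≤ L t := h2
        have a3 : (L t : ℝ) ≤ t := h3
        rw [abs_of_nonneg (by linarith)] at hd ⊢
        linarith
    intro s t hd
    rcases le_total s t with h | h
    · exact key s t h hd
    · rw [dist_comm]
      rw [dist_comm] at hd
      exact key t s h hd
  have hL0 : L 0 = 0 := le_antisymm (hLle 0) unitInterval.nonneg'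
  have hL1 : L 1 = 1 := le_antisymm (hLle 1) (hLmax 1 1 h1 le_rfl)
  refine ⟨⟨fun t => f (L t), hcont⟩, ?_, ?_, ?_, ?_⟩
  · simp [hL0]
  · simp [hL1]
  · rintro x ⟨t, rfl⟩
    exact ⟨L t, rfl⟩
  · intro s t hst hF r hsr hrt
    simp only [ContinuousMap.coe_mk] at hF ⊢
    by_cases h : s ≤ L r
    · have hRs : R s ≤ L r := hRmin s _ (hLC r) h
      have hLrt : L r ≤ L t := hLmax t _ (hLC r) ((hLle r).trans hrt)
      rw [hLR s] at hF
      by_cases he : R s = L t
      · have : L r = R s := le_antisymm (he ▸ hLrt) hRs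
        rw [this, hLR s]
      · have hlt : R s < L t := lt_of_le_of_ne (hRs.trans hLrt) he
        have hem := hmin _ (hRC s) _ (hLC t) hlt hF
        by_cases h1' : L r = R s
        · rw [h1', hLR s]
        · by_cases h2' : L r = L t
          · rw [h2', hLR s, hF]
          · exfalso
            have : L r ∈ Ioo (R s) (L t) ∩ C :=
              ⟨⟨lt_of_le_of_ne hRs (Ne.symm h1'), lt_of_le_of_ne hLrt h2'⟩, hLC r⟩
            rw [hem] at this
            exact this
    · have h' : L r ≤ L s := hLmax s _ (hLC r) (not_le.1 h).le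
      have h'' : L s ≤ L r := hLmax r _ (hLC s) ((hLle s).trans hsr)
      rw [le_antisymm h'' h']

/-! ## Part 2: from a monotone path to an arc -/

/-- running maximum of the distance to the point at time `p` -/
def phi (F : C(I, X)) (p t : I) : ℝ := sSup ((fun x => dist (F x) (F p)) '' Icc p (max p t))

theorem phi_bdd (F : C(I, X)) (p t : I) :
    BddAbove ((fun x => dist (F x) (F p)) '' Icc p (max p t)) :=
  (isCompact_Icc.image (F.continuous.dist continuous_const)).bddAbove

theorem phi_nonempty (F : C(I, X)) (p t : I) :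
    ((fun x => dist (F x) (F p)) '' Icc p (max p t)).Nonempty :=
  (nonempty_Icc.2 (le_max_left _ _)).image _

theorem le_phi (F : C(I, X)) (p t x : I) (h1 : p ≤ x) (h2 : x ≤ max p t) :
    dist (F x) (F p) ≤ phi F p t :=
  le_csSup (phi_bdd F p t) ⟨x, ⟨h1, h2⟩, rfl⟩

theorem phi_nonneg (F : C(I, X)) (p t : I) : 0 ≤ phi F p t := by
  have := le_phi F p t p le_rfl (le_max_left _ _)
  rw [dist_self] at this
  exact this

theorem phi_mono (F : C(I, X)) (p : I) : Monotone (phi F p) := by
  intro s t hst
  exact csSup_le_csSup (phi_bdd F p t) (phi_nonempty F p s)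
    (image_mono (Icc_subset_Icc_right (max_le_max_left p hst)))

theorem phi_eq_zero (F : C(I, X)) (p t : I) (h : t ≤ p) : phi F p t = 0 := by
  rw [phi, max_eq_left h, Icc_self, image_singleton, dist_self, csSup_singleton]

theorem phi_cont (F : C(I, X)) (p : I) : Continuous (phi F p) := by
  have h : phi F p = fun t => sSup ((fun r : I =>
      dist (F (Set.Icc.convexComb p (max p t) r)) (F p)) '' univ) := by
    funext t
    rw [phi]
    congr 1
    ext y
    constructor
    · rintro ⟨x, ⟨h1, h2⟩, rfl⟩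
      rcases eq_or_lt_of_le (le_max_left p t) with h | h
      · refine ⟨0, mem_univ _, ?_⟩
        have : x = p := le_antisymm (h2.trans h.ge) h1
        simp [this]
      · have h3 : (p : ℝ) < (max p t : I) := h
        have h4 : (p : ℝ) ≤ x := h1
        have h5 : (x : ℝ) ≤ (max p t : I) := h2
        have h6 : (0 : ℝ) < ((max p t : I) : ℝ) - p := by linarith
        refine ⟨⟨((x : ℝ) - p) / (((max p t : I) : ℝ) - p), div_nonneg (by linarith) h6.le,
          (div_le_one h6).2 (by linarith)⟩, mem_univ _, ?_⟩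
        have : Set.Icc.convexComb p (max p t) ⟨((x : ℝ) - p) / (((max p t : I) : ℝ) - p),
            div_nonneg (by linarith) h6.le, (div_le_one h6).2 (by linarith)⟩ = x := by
          apply Subtype.ext
          simp only [Set.Icc.coe_convexComb]
          generalize ((max p t : I) : ℝ) = q at h6
          field_simp
          ring
        simp only [this]
    · rintro ⟨r, _, rfl⟩
      exact ⟨_, ⟨Set.Icc.le_convexComb (le_max_left _ _) r,
        Set.Icc.convexComb_le (le_max_left _ _) r⟩, rfl⟩
  rw [h]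
  apply IsCompact.continuous_sSup isCompact_univ
  have hc : Continuous fun q : I × I => Set.Icc.convexComb p (max p q.1) q.2 :=
    Set.Icc.continuous_convexComb_prod.comp
      (continuous_const.prodMk ((continuous_const.max continuous_fst).prodMk continuous_snd))
  exact (F.continuous.comp hc).dist continuous_const

/-- terms of the series -/
def trm (F : C(I, X)) (k : ℕ) (t : I) : ℝ :=
  (1/2 : ℝ)^k * min 1 (phi F (TopologicalSpace.denseSeq I k) t)

/-- the reparametrisation -/
def psi (F : C(I, X)) (t : I) : ℝ := ∑' k, trm F k t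

theorem trm_bound (F : C(I, X)) (k : ℕ) (t : I) : ‖trm F k t‖ ≤ (1/2 : ℝ)^k := by
  have h1 : 0 ≤ min 1 (phi F (TopologicalSpace.denseSeq I k) t) :=
    le_min zero_le_one (phi_nonneg F _ t)
  have h2 : min 1 (phi F (TopologicalSpace.denseSeq I k) t) ≤ 1 := min_le_left _ _
  have h3 : (0 : ℝ) ≤ (1/2 : ℝ)^k := by positivity
  rw [trm, Real.norm_eq_abs, abs_of_nonneg (mul_nonneg h3 h1)]
  nlinarith

theorem summ : Summable (fun k : ℕ => (1/2 : ℝ)^k) :=
  summable_geometric_of_lt_one (by norm_num) (by norm_num)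

theorem trm_summable (F : C(I, X)) (t : I) : Summable (fun k => trm F k t) :=
  Summable.of_norm_bounded summ (fun k => trm_bound F k t)

theorem trm_cont (F : C(I, X)) (k : ℕ) : Continuous (trm F k) :=
  continuous_const.mul (continuous_const.min (phi_cont F _))

theorem trm_mono (F : C(I, X)) (k : ℕ) : Monotone (trm F k) := by
  intro s t hst
  exact mul_le_mul_of_nonneg_left (min_le_min_left _ (phi_mono F _ hst)) (by positivity)

theorem psi_cont (F : C(I, X)) : Continuous (psi F) :=
  continuous_tsum (trm_cont F) summ (trm_bound F)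

theorem psi_mono (F : C(I, X)) : Monotone (psi F) := fun s t hst =>
  (trm_summable F s).tsum_le_tsum (fun k => trm_mono F k hst) (trm_summable F t)

theorem psi_eq (F : C(I, X)) {s t : I} (hst : s ≤ t) (h : psi F s = psi F t) : F s = F t := by
  by_contra hne
  have hlt : s < t := lt_of_le_of_ne hst (fun h => hne (by rw [h]))
  have hV : IsOpen {r : I | F r ≠ F t} := isOpen_ne_fun F.continuous continuous_const
  have hmem : s ∈ closure (Ioo s t) := by
    rw [closure_Ioo hlt.ne]; exact left_mem_Icc.2 hst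
  have hne' : ({r : I | F r ≠ F t} ∩ Ioo s t).Nonempty :=
    _root_.mem_closure_iff.1 hmem _ hV hne
  obtain ⟨r, hr, k, rfl⟩ := (TopologicalSpace.denseRange_denseSeq I).inter_open_nonempty _
    (hV.inter isOpen_Ioo) hne'
  have hk : trm F k s = trm F k t := by
    by_contra hk
    have hlt' : trm F k s < trm F k t := lt_of_le_of_ne (trm_mono F k hst) hk
    have := Summable.tsum_lt_tsum (fun j => trm_mono F j hst) hlt' (trm_summable F s)
      (trm_summable F t)
    exact absurd h this.ne
  have h1 : min 1 (phi F (TopologicalSpace.denseSeq I k) s) =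
      min 1 (phi F (TopologicalSpace.denseSeq I k) t) := by
    have h2 : (0 : ℝ) < (1/2 : ℝ)^k := by positivity
    exact mul_left_cancel₀ h2.ne' hk
  rw [phi_eq_zero F _ s hr.2.1.le, min_eq_right zero_le_one] at h1
  have h3 : phi F (TopologicalSpace.denseSeq I k) t ≤ 0 := by
    by_contra hcon
    have : 0 < min 1 (phi F (TopologicalSpace.denseSeq I k) t) :=
      lt_min one_pos (not_le.1 hcon)
    linarith
  have h4 := le_phi F (TopologicalSpace.denseSeq I k) t t hr.2.2.le (le_max_right _ _)
  have h5 : dist (F t) (F (TopologicalSpace.denseSeq I k)) = 0 :=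
    le_antisymm (h4.trans h3) dist_nonneg
  exact hr.1 (dist_eq_zero.1 h5).symm

theorem psi_eq' (F : C(I, X)) (hF : ∀ s t : I, s ≤ t → F s = F t → ∀ r, s ≤ r → r ≤ t → F r = F s)
    {s t : I} (hst : s ≤ t) (h : F s = F t) : psi F s = psi F t := by
  have key : ∀ p, phi F p s = phi F p t := by
    intro p
    rw [phi, phi]
    congr 1
    apply Subset.antisymm
    · exact image_mono (Icc_subset_Icc_right (max_le_max_left p hst))
    · rintro y ⟨x, ⟨h1, h2⟩, rfl⟩
      by_cases hx : x ≤ max p s
      · exact ⟨x, ⟨h1, hx⟩, rfl⟩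
      · have hx' := not_le.1 hx
        have hsx : s < x := (le_max_right p s).trans_lt hx'
        have hpx : p < x := (le_max_left p s).trans_lt hx'
        have hxt : x ≤ t := by
          rcases le_max_iff.1 h2 with h3 | h3
          · exact absurd hpx (not_lt.2 h3)
          · exact h3
        refine ⟨max p s, ⟨le_max_left _ _, le_rfl⟩, ?_⟩
        have e1 := hF s t hst h x hsx.le hxt
        have e2 := hF s t hst h (max p s) (le_max_right _ _) (hx'.le.trans hxt)
        simp only [e1, e2]
  simp only [psi, trm, key]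

/-- every path contains an arc -/
theorem pathArc : PathArcStmt X := by
  intro f hf
  obtain ⟨F, hF0, hF1, hFr, hF⟩ := exists_mono f
  have hne : F 0 ≠ F 1 := by rw [hF0, hF1]; exact hf
  have h01 : psi F 0 < psi F 1 := lt_of_le_of_ne (psi_mono F zero_le_one)
    (fun h => hne (psi_eq F zero_le_one h))
  set A := psi F 0
  set B := psi F 1
  have hBA : 0 < B - A := sub_pos.2 h01
  have hb : ∀ t, A ≤ psi F t ∧ psi F t ≤ B := fun t =>
    ⟨psi_mono F unitInterval.nonneg', psi_mono F unitInterval.le_one'⟩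
  set Q : I → I := fun t => ⟨(psi F t - A) / (B - A), div_nonneg (by linarith [(hb t).1]) hBA.le,
    (div_le_one hBA).2 (by linarith [(hb t).2])⟩ with hQ
  have hQc : Continuous Q :=
    Continuous.subtype_mk (((psi_cont F).sub continuous_const).div_const _) _
  have hQs : Function.Surjective Q := by
    intro u
    have hu : A + u * (B - A) ∈ Icc (psi F 0) (psi F 1) := by
      have := u.2.1; have := u.2.2
      constructor
      · change A ≤ _
        nlinarith
      · change _ ≤ B
        nlinarith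
    obtain ⟨t, _, ht⟩ := intermediate_value_Icc (zero_le_one (α := I)) (psi_cont F).continuousOn hu
    refine ⟨t, Subtype.ext ?_⟩
    simp only [hQ]
    rw [ht]
    field_simp
    ring
  have hQq : IsQuotientMap Q := hQc.isClosedMap.isQuotientMap hQc hQs
  have hQF : ∀ s t, Q s = Q t → F s = F t := by
    intro s t h
    have h1 : psi F s = psi F t := by
      have h2 := congrArg Subtype.val h
      simp only [hQ] at h2
      have h3 := (div_left_inj' hBA.ne').1 h2
      linarith
    rcases le_total s t with h4 | h4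
    · exact psi_eq F h4 h1
    · exact (psi_eq F h4 h1.symm).symm
  have hFQ : ∀ s t, F s = F t → Q s = Q t := by
    intro s t h
    have h1 : psi F s = psi F t := by
      rcases le_total s t with h4 | h4
      · exact psi_eq' F hF h4 h
      · exact (psi_eq' F hF h4 h.symm).symm
    apply Subtype.ext
    simp only [hQ]
    rw [h1]
  set g : I → X := fun u => F (Function.surjInv hQs u) with hg
  have hgQ : g ∘ Q = F := by
    funext t
    exact hQF _ _ (Function.surjInv_eq hQs (Q t))
  have hgc : Continuous g := by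
    rw [hQq.continuous_iff, hgQ]
    exact F.continuous
  refine ⟨⟨g, hgc⟩, ?_, ?_, ?_, ?_⟩
  · intro u v huv
    have := hFQ _ _ huv
    rw [Function.surjInv_eq hQs u, Function.surjInv_eq hQs v] at this
    exact this
  · have h0 : Q 0 = 0 := by
      apply Subtype.ext
      simp [hQ, A]
    have := congrFun hgQ 0
    simp only [Function.comp_apply, h0] at this
    simp only [ContinuousMap.coe_mk]
    rw [this, hF0]
  · have h1 : Q 1 = 1 := by
      apply Subtype.ext
      simp only [hQ]
      exact div_self hBA.ne'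
    have := congrFun hgQ 1
    simp only [Function.comp_apply, h1] at this
    simp only [ContinuousMap.coe_mk]
    rw [this, hF1]
  · rintro x ⟨u, rfl⟩
    exact hFr ⟨_, rfl⟩

end Pool.Agent.EU.H11
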