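import Pool.Agent.Helper11_EU.Basic

/-! # Module T0 -/

open Set Metric Topology unitInterval

noncomputable section

namespace Pool.Agent.EU.H11

universe u v

variable {X : Type u} [MetricSpace X] {ι : Type v} (𝓔 : EdgeSys X ι)

theorem arcDich : 𝓔.ArcDichStmt := by
  intro a i
  by_cases h : Disjoint (𝓔.o i) (range a.f)
  · exact Or.inr h
  · left
    rw [Set.not_disjoint_iff] at h
    obtain ⟨x, hx, ⟨t, rfl⟩⟩ := h
    obtain ⟨b, s, s', hr, _, _⟩ := runs_of_meets 𝓔 a i t hx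
    intro y hy
    rw [← hr.2.2.1] at hy
    obtain ⟨r, _, rfl⟩ := hy
    exact ⟨r, rfl⟩

theorem arcRuns : 𝓔.ArcRunsStmt := by
  intro a i hi
  obtain ⟨x, hx⟩ := o_nonempty 𝓔 i
  obtain ⟨t, rfl⟩ := hi hx
  obtain ⟨b, s, s', hr, _, _⟩ := runs_of_meets 𝓔 a i t hx
  exact ⟨b, s, s', hr⟩

theorem convexComb_injective {s t : I} (h : s < t) :
    Function.Injective (Set.Icc.convexComb s t) := by
  intro x y hxy
  have h1 := congrArg (Subtype.val) hxy
  simp only [Set.Icc.coe_convexComb] at h1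
  have h2 : (s : ℝ) < t := h
  apply Subtype.ext
  have h3 : ((x : ℝ) - y) * ((t : ℝ) - s) = 0 := by linarith
  rcases mul_eq_zero.1 h3 with h4 | h4
  · linarith
  · linarith

theorem range_convexComb {s t : I} (h : s < t) : range (Set.Icc.convexComb s t) = Icc s t := by
  apply Subset.antisymm
  · rintro x ⟨r, rfl⟩
    exact ⟨Set.Icc.le_convexComb h.le r, Set.Icc.convexComb_le h.le r⟩
  · rintro x ⟨hx1, hx2⟩
    have h2 : (s : ℝ) < t := h
    have h3 : (s : ℝ) ≤ x := hx1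
    have h4 : (x : ℝ) ≤ t := hx2
    have h5 : (0 : ℝ) < t - s := by linarith
    refine ⟨⟨((x : ℝ) - s) / (t - s), div_nonneg (by linarith) h5.le,
      (div_le_one h5).2 (by linarith)⟩, ?_⟩
    apply Subtype.ext
    simp only [Set.Icc.coe_convexComb]
    field_simp
    ring

/-- sub-arc -/
def subArc (a : 𝓔.Arc) (s t : I) (h : s < t) (hs : a.f s ∈ 𝓔.G) (ht : a.f t ∈ 𝓔.G) : 𝓔.Arc where
  f := a.f.comp ⟨Set.Icc.convexComb s t, Set.Icc.continuous_convexComb s t⟩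
  inj := a.inj.comp (convexComb_injective h)
  h0 := by simpa using hs
  h1 := by simpa using ht

theorem subArc' : 𝓔.SubArcStmt := by
  intro a s t h hs ht
  refine ⟨subArc 𝓔 a s t h hs ht, ?_, ?_, ?_⟩
  · simp [subArc]
  · simp [subArc]
  · have : (⇑(subArc 𝓔 a s t h hs ht).f) = a.f ∘ Set.Icc.convexComb s t := rfl
    rw [this, range_comp, range_convexComb h]

/-- points of a big edge far from both ends -/
theorem exists_far {i : ι} {ε : ℝ} (h : ¬ Small ε (𝓔.c i)) (hε : 0 < ε) :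
    ∃ x ∈ 𝓔.o i, ε / 4 ≤ dist x (𝓔.φ i 0) ∧ ε / 4 ≤ dist x (𝓔.φ i 1) := by
  by_contra hcon
  push Not at hcon
  apply h
  set p := 𝓔.φ i 0
  set q := 𝓔.φ i 1
  have hcov : 𝓔.c i ⊆ ball p (ε/4) ∪ ball q (ε/4) := by
    intro x hx
    by_cases ho : x ∈ 𝓔.o i
    · by_cases h1 : ε / 4 ≤ dist x p
      · exact Or.inr (hcon x ho h1)
      · exact Or.inl (not_le.1 h1)
    · rcases c_diff_o 𝓔 i hx ho with rfl | rfl
      · exact Or.inl (mem_ball_self (by linarith))
      · exact Or.inr (mem_ball_self (by linarith))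
  obtain ⟨z, _, hz1, hz2⟩ := (c_connected 𝓔 i).isPreconnected _ _ isOpen_ball isOpen_ball hcov
    ⟨p, ⟨0, rfl⟩, mem_ball_self (by linarith)⟩ ⟨q, ⟨1, rfl⟩, mem_ball_self (by linarith)⟩
  rw [mem_ball] at hz1 hz2
  have hpq : dist p q < ε / 2 := by
    have := dist_triangle_left p q z
    linarith
  have key : ∀ x ∈ 𝓔.c i, ∀ y ∈ 𝓔.c i, dist x y ≤ ε := by
    intro x hx y hy
    rcases hcov hx with h1 | h1 <;> rcases hcov hy with h2 | h2 <;> rw [mem_ball] at h1 h2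
    · have := dist_triangle_right x y p
      linarith
    · have h3 := dist_triangle x p y
      have h4 := dist_triangle_right p y q
      linarith
    · have h3 := dist_triangle x q y
      have h4 := dist_triangle_right q y p
      rw [dist_comm q p] at h4
      linarith
    · have := dist_triangle_right x y q
      linarith
  exact key

theorem null [CompactSpace X] [LocallyConnectedSpace X] : 𝓔.NullStmt := by
  intro ε hε
  by_contra hinf
  have hinf' : {i | ¬ Small ε (𝓔.c i)}.Infinite := hinf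
  have hex : ∀ i : {i | ¬ Small ε (𝓔.c i)}, ∃ x ∈ 𝓔.o i, ε / 4 ≤ dist x (𝓔.φ i 0) ∧
      ε / 4 ≤ dist x (𝓔.φ i 1) := fun i => exists_far 𝓔 i.2 hε
  choose x hxo hx0 hx1 using hex
  have hxinj : Function.Injective x := by
    intro i j hij
    by_contra hne
    have hne' : (i : ι) ≠ j := fun h => hne (Subtype.ext h)
    have := hxo j
    rw [← hij] at this
    exact Set.disjoint_left.1 (𝓔.disj i j hne') (hxo i) this
  have : Infinite {i | ¬ Small ε (𝓔.c i)} := hinf'.to_subtype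
  have hA : (range x).Infinite := infinite_range_of_injective hxinj
  obtain ⟨z, hz⟩ := hA.exists_accPt_principal
  obtain ⟨N, hNsub, hNo, hzN, hNc⟩ :=
    (locallyConnectedSpace_iff_subsets_isOpen_isConnected.1 inferInstance) z (ball z (ε/8))
      (ball_mem_nhds z (by linarith))
  have hNinf : (N ∩ range x).Infinite := by
    have := accPt_iff_frequently.1 hz
    intro hfin
    have hfin' : ((N ∩ range x) \ {z}).Finite := hfin.subset sdiff_subset
    have hopen : IsOpen (N \ ((N ∩ range x) \ {z})) := hNo.sdiff hfin'.isClosed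
    have hzmem : z ∈ N \ ((N ∩ range x) \ {z}) := ⟨hzN, fun h => h.2 rfl⟩
    obtain ⟨y, ⟨hy1, hy2⟩, hy3⟩ := (this.and_eventually (hopen.mem_nhds hzmem)).exists
    exact hy3.2 ⟨⟨hy3.1, hy2⟩, hy1⟩
  obtain ⟨y, ⟨hyN, ⟨i, rfl⟩⟩, y', ⟨hy'N, ⟨j, rfl⟩⟩, hne⟩ := hNinf.nontrivial
  have hij : (i : ι) ≠ j := fun h => hne (by rw [Subtype.ext h])
  have h2 : x j ∉ 𝓔.o i := fun h => Set.disjoint_left.1 (𝓔.disj i j hij) h (hxo j)
  have hdist : ∀ w ∈ N, dist (x i) w < ε / 4 := by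
    intro w hw
    have h3 := mem_ball.1 (hNsub hw)
    have h4 := mem_ball.1 (hNsub hyN)
    have := dist_triangle_right (x i) w z
    linarith
  rcases exists_end_of_meets 𝓔 hNc.isPreconnected ⟨x i, hyN, hxo i⟩ ⟨x j, hy'N, h2⟩ with h | h
  · exact absurd (hdist _ h) (not_lt.2 (hx0 i))
  · exact absurd (hdist _ h) (not_lt.2 (hx1 i))

theorem crossFin [CompactSpace X] [LocallyConnectedSpace X] : 𝓔.CrossFinStmt := by
  intro K hK
  obtain ⟨hKG, hKc, hKc'⟩ := hK
  have hdisj : Disjoint K (𝓔.G \ K) := disjoint_sdiff_right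
  obtain ⟨d, hd, hdist⟩ : ∃ d > 0, ∀ x ∈ K, ∀ y ∈ 𝓔.G \ K, d < dist x y := by
    by_cases hne : K.Nonempty ∧ (𝓔.G \ K).Nonempty
    · obtain ⟨r, hr, h⟩ := Metric.exists_pos_forall_lt_edist hKc.isCompact hKc' hdisj
      refine ⟨r, hr, fun x hx y hy => ?_⟩
      have := h x hx y hy
      rw [edist_nndist] at this
      exact_mod_cast this
    · refine ⟨1, one_pos, fun x hx y hy => absurd ⟨⟨x, hx⟩, ⟨y, hy⟩⟩ hne⟩
  refine (null 𝓔 d hd).subset ?_
  intro i hi hs
  have h0 := end0_mem_G 𝓔 i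
  have h1 := end1_mem_G 𝓔 i
  have hd01 := hs _ ⟨0, rfl⟩ _ ⟨1, rfl⟩
  have hi' : ¬ (𝓔.φ i 0 ∈ K ↔ 𝓔.φ i 1 ∈ K) := hi
  by_cases hk0 : 𝓔.φ i 0 ∈ K
  · have hk1 : 𝓔.φ i 1 ∉ K := fun h => hi' ⟨fun _ => h, fun _ => hk0⟩
    exact absurd hd01 (not_le.2 (hdist _ hk0 _ ⟨h1, hk1⟩))
  · have hk1 : 𝓔.φ i 1 ∈ K := by
      by_contra h
      exact hi' ⟨fun h' => absurd h' hk0, fun h' => absurd h' h⟩
    rw [dist_comm] at hd01
    exact absurd hd01 (not_le.2 (hdist _ hk1 _ ⟨h0, hk0⟩))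

end Pool.Agent.EU.H11
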